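import Pool.Agent.R317.TropF

set_option autoImplicit false

/-!
# Unbounded solutions of `x_{n+1} = (α + x_n) / x_{n-2}`

For every `α > 0` the recurrence has an unbounded positive solution.
-/

namespace Pool.Agent.Results.MP_f66a6a_an.Unbounded

/-- here `x n` is the term `x_{n-2}` of the problem -/
theorem result (α : ℝ) (hα : 0 < α) :
    ∃ x : ℕ → ℝ, (∀ n, 0 < x n) ∧ (∀ n, x (n + 3) = (α + x (n + 2)) / x n) ∧
      ¬ BddAbove (Set.range x) :=
  Pool.Agent.R317.TropF.main α hα

end Pool.Agent.Results.MP_f66a6a_an.Unbounded
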